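import Pool.Agent.LibTR29.T5
import Pool.Agent.LibBR70.H1p

/-! The identity term and the higher terms: the trace formula with the leading terms of the
parametrix. -/

open MeasureTheory Set Filter Topology
open scoped ContDiff

namespace TR

open BGS BR

variable {Γ : Type} [Group Γ] [MulAction Γ Pl] {D : Set Pl}

/-- The `j`-th term of the kernel at `(x, γ x)`. -/
noncomputable def tj (m : Pl → Co) (g : ℝ → ℝ) (γ : Γ) (j : ℕ) (x : Pl) : ℝ :=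
  UU (Gx m x) j (Vx m x (γ • x)) * Ab j g (sg (Vx m x (γ • x)))

theorem Kx_eq (m : Pl → Co) (N : ℕ) (g : ℝ → ℝ) (γ : Γ) (x : Pl) :
    Kx m N g x (γ • x) = ∑ j ∈ Finset.range (N + 1), tj m g γ j x := rfl

theorem tj_zero (m : Pl → Co) {g : ℝ → ℝ} (hg : ContDiff ℝ ∞ g) {ρ : ℝ} (hρ : 0 ≤ ρ)
    (hs : ∀ t, ρ < |t| → g t = 0) (γ : Γ) (j : ℕ) {x : Pl} (hv : ρ < eu (Vx m x (γ • x))) :
    tj m g γ j x = 0 := by
  unfold tj
  have h1 : ρ ^ 2 < sg (Vx m x (γ • x)) := by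
    rw [sg_eu]
    gcongr
  rw [Ab_supp hρ (Tl_of hg hρ hs) j ((sq_nonneg ρ).trans_lt h1) h1, mul_zero]

theorem tj_cont (hX : Surface Γ D) (hO : Ori Γ) {m : Pl → Co} (hm : HM Γ m) {g : ℝ → ℝ}
    (hg : ContDiff ℝ ∞ g) (he : ∀ t, g (-t) = g t) {ρ : ℝ} (hs : ∀ t, ρ < |t| → g t = 0)
    (γ : Γ) (j : ℕ) : Continuous (tj m g γ j) := Td_cont hX hO hm hg he hs γ j

theorem tj_bound (hX : Surface Γ D) (hO : Ori Γ) {m : Pl → Co} (hm : HM Γ m) {j : ℕ}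
    (hj : 1 ≤ j) : ∃ C : ℝ, 0 < C ∧ ∀ (a : ℝ → ℂ) (ρ M τ : ℝ), 0 ≤ ρ → Amp a ρ M → 1 ≤ τ →
      ∀ (γ : Γ), ∀ x ∈ closure D, |tj m (osc a τ) γ j x| ≤ C * Real.exp (C * ρ) * M / √τ := by
  obtain ⟨C1, hC1⟩ := (RB_UU (Fam_Gx hX hO hm) j).2 0
  obtain ⟨C2, hC2⟩ := Ab_osc hj
  refine ⟨(|C1| + 1) * ((|C2| + 1) * ((2 * j).factorial * Real.exp 1)) + |C1| + 1, by positivity,
    fun a ρ M τ hρ ha hτ γ x hx => ?_⟩
  have hM := amp_M_nonneg ha
  set C := (|C1| + 1) * ((|C2| + 1) * ((2 * j).factorial * Real.exp 1)) + |C1| + 1 with hC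
  have hCpos : 0 < C := by positivity
  have hτ0 : 0 < √τ := Real.sqrt_pos.2 (by linarith)
  by_cases hv : ρ < eu (Vx m x (γ • x))
  · rw [tj_zero m (osc_smooth ha τ) hρ (osc_supp ha τ) γ j hv, abs_zero]
    positivity
  rw [not_lt] at hv
  set v := Vx m x (γ • x) with hvd
  have h1 : |UU (Gx m x) j v| ≤ (|C1| + 1) * Real.exp (|C1| * ρ) := by
    have h2 := hC1 x hx v
    rw [norm_iteratedFDeriv_zero] at h2
    have h3 : |UU (Gx m x) j v| ≤ C1 * Real.exp (C1 * ‖v‖) := h2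
    refine h3.trans ?_
    have h4 : ‖v‖ ≤ ρ := (norm_le_eu v).trans hv
    have h5 : C1 * ‖v‖ ≤ |C1| * ρ := by
      calc C1 * ‖v‖ ≤ |C1| * ‖v‖ := by gcongr; exact le_abs_self C1
        _ ≤ _ := by gcongr
    have h6 : C1 ≤ |C1| + 1 := (le_abs_self C1).trans (by linarith)
    gcongr
  have h2 : |Ab j (osc a τ) (sg v)| ≤ (|C2| + 1) * M * ((2 * j).factorial * Real.exp 1 *
      Real.exp ρ) / √τ := by
    have h3 := hC2 a ρ M τ (sg v) hρ ha hτ (by rw [sg_eu]; positivity)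
    refine h3.trans ?_
    have h4 : (ρ + 1) ^ (2 * j) ≤ (2 * j).factorial * Real.exp 1 * Real.exp ρ := by
      have h5 := Real.pow_div_factorial_le_exp (ρ + 1) (by linarith) (2 * j)
      rw [div_le_iff₀ (by positivity), Real.exp_add] at h5
      linarith
    have h6 : C2 ≤ |C2| + 1 := (le_abs_self C2).trans (by linarith)
    gcongr
  have h3 : |tj m (osc a τ) γ j x| = |UU (Gx m x) j v| * |Ab j (osc a τ) (sg v)| := by
    unfold tj
    rw [abs_mul]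
  rw [h3]
  have h4 : Real.exp (|C1| * ρ) * Real.exp ρ ≤ Real.exp (C * ρ) := by
    rw [← Real.exp_add, Real.exp_le_exp]
    have h5 : 0 ≤ (|C1| + 1) * ((|C2| + 1) * ((2 * j).factorial * Real.exp 1)) * ρ := by positivity
    rw [hC]
    nlinarith
  calc |UU (Gx m x) j v| * |Ab j (osc a τ) (sg v)|
      ≤ ((|C1| + 1) * Real.exp (|C1| * ρ)) * ((|C2| + 1) * M * ((2 * j).factorial * Real.exp 1 *
      Real.exp ρ) / √τ) := by gcongr
    _ = ((|C1| + 1) * ((|C2| + 1) * ((2 * j).factorial * Real.exp 1))) *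
        (Real.exp (|C1| * ρ) * Real.exp ρ) * M / √τ := by ring
    _ ≤ C * Real.exp (C * ρ) * M / √τ := by
        gcongr
        rw [hC]
        have := abs_nonneg C1
        linarith

theorem high_bound (hX : Surface Γ D) (hO : Ori Γ) {m : Pl → Co} (hm : HM Γ m) (N : ℕ) :
    ∃ C : ℝ, 0 < C ∧ ∀ (a : ℝ → ℂ) (ρ M τ : ℝ), 0 ≤ ρ → Amp a ρ M → 1 ≤ τ →
      ∀ (γ : Γ), ∀ x ∈ closure D, |Kx m N (osc a τ) x (γ • x) - tj m (osc a τ) γ 0 x| ≤
        C * Real.exp (C * ρ) * M / √τ := by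
  choose C hC hb using fun j : ℕ => tj_bound hX hO hm (Nat.succ_le_succ (Nat.zero_le j))
  refine ⟨∑ j ∈ Finset.range N, C j + 1, by
    have := Finset.sum_nonneg (s := Finset.range N) fun j _ => (hC j).le
    positivity, fun a ρ M τ hρ ha hτ γ x hx => ?_⟩
  have hM := amp_M_nonneg ha
  set K := ∑ j ∈ Finset.range N, C j + 1 with hK
  have hsum : ∑ j ∈ Finset.range N, C j ≤ K := by linarith
  rw [Kx_eq, Finset.sum_range_succ', add_sub_cancel_right]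
  refine (Finset.abs_sum_le_sum_abs _ _).trans ?_
  have h1 : ∀ j ∈ Finset.range N, |tj m (osc a τ) γ (j + 1) x| ≤ C j * (Real.exp (K * ρ) * M / √τ) := by
    intro j hj
    refine (hb j a ρ M τ hρ ha hτ γ x hx).trans ?_
    have h2 : C j ≤ K := (Finset.single_le_sum (fun j _ => (hC j).le) hj).trans hsum
    have h3 := (hC j).le
    calc C j * Real.exp (C j * ρ) * M / √τ = C j * (Real.exp (C j * ρ) * M / √τ) := by ring
      _ ≤ _ := by gcongr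
  refine (Finset.sum_le_sum h1).trans ?_
  rw [← Finset.sum_mul]
  have h4 : 0 ≤ Real.exp (K * ρ) * M / √τ := by positivity
  calc (∑ j ∈ Finset.range N, C j) * (Real.exp (K * ρ) * M / √τ)
      ≤ K * (Real.exp (K * ρ) * M / √τ) := by gcongr
    _ = _ := by ring

theorem one_mem_near (hX : Surface Γ D) {m : Pl → Co} (hm : HM Γ m) {R : ℝ} (hR : 0 ≤ R) :
    (1 : Γ) ∈ near Γ D m R := by
  obtain ⟨γ, hγ, -⟩ := hX.orbit 0
  refine ⟨γ • 0, subset_closure hγ, γ • 0, subset_closure hγ, ?_⟩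
  rw [one_smul, Vx_self hX hm]
  unfold eu
  simpa using hR

theorem near_fin (hX : Surface Γ D) (hO : Ori Γ) {m : Pl → Co} (hm : HM Γ m) :
    ∃ C : ℝ, 0 < C ∧ ∀ R : ℝ, 0 ≤ R → (near Γ D m R).Finite ∧
      ((near Γ D m R).ncard : ℝ) ≤ C * Real.exp (C * R) := by
  obtain ⟨C, hC⟩ := count_deck hX hO hm
  refine ⟨|C| + 1, by positivity, fun R hR => ⟨(hC R hR).1, ((hC R hR).2).trans ?_⟩⟩
  have h1 : C ≤ |C| + 1 := (le_abs_self C).trans (by linarith)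
  gcongr

theorem tj_int_zero (m : Mt Γ D) {g : ℝ → ℝ} (hg : ContDiff ℝ ∞ g) {ρ : ℝ}
    (hρ : 0 ≤ ρ) (hs : ∀ t, ρ < |t| → g t = 0) {γ : Γ} (hγ : γ ∉ near Γ D m.1.1 ρ) (j : ℕ) :
    ∫ x in D, tj m.1.1 g γ j x * √(dt (m.1.1 x)) = 0 := by
  refine setIntegral_eq_zero_of_forall_eq_zero fun x hx => ?_
  rw [tj_zero m.1.1 hg hρ hs γ j, zero_mul]
  by_contra h1
  rw [not_lt] at h1
  exact hγ ⟨x, subset_closure hx, x, subset_closure hx, h1⟩

theorem Kx_int_zero (m : Mt Γ D) (N : ℕ) {g : ℝ → ℝ} (hg : ContDiff ℝ ∞ g)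
    {ρ : ℝ} (hρ : 0 ≤ ρ) (hs : ∀ t, ρ < |t| → g t = 0) {γ : Γ} (hγ : γ ∉ near Γ D m.1.1 ρ) :
    ∫ x in D, Kx m.1.1 N g x (γ • x) * √(dt (m.1.1 x)) = 0 := by
  refine setIntegral_eq_zero_of_forall_eq_zero fun x hx => ?_
  rw [Kx_zero m.1.1 N hg hρ hs, zero_mul]
  by_contra h1
  rw [not_lt] at h1
  exact hγ ⟨x, subset_closure hx, x, subset_closure hx, h1⟩

theorem identity_term (hX : Surface Γ D) (m : Mt Γ D) {g : ℝ → ℝ} (hg : ContDiff ℝ ∞ g)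
    (he : ∀ t, g (-t) = g t) {ρ : ℝ} (hs : ∀ t, ρ < |t| → g t = 0) :
    ∫ x in D, tj m.1.1 g (1 : Γ) 0 x * √(dt (m.1.1 x)) =
      1 / (2 * Real.pi) * ∫ y in Ioi (0 : ℝ), hh g y * y := by
  have hm := hm_of_Mt m
  rw [← Ab_zero hg he hs]
  have h1 : ∀ x : Pl, tj m.1.1 g (1 : Γ) 0 x = Ab 0 g 0 := by
    intro x
    unfold tj
    rw [one_smul, Vx_self hX hm, (UU_zero_zero (Gx_PMt hX hm x)).1, one_mul]
    congr 1
    unfold sg
    simp
  simp_rw [h1]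
  rw [integral_const_mul, m.2.area, mul_one]

theorem trwe (hX : Surface Γ D) (hO : Ori Γ) (m : Mt Γ D) {e : ℕ → TestS Γ}
    (h : Bas hX m e) : ∃ C : ℝ, 0 < C ∧ ∀ (a : ℝ → ℂ) (ρ M τ : ℝ), 0 ≤ ρ → Amp a ρ M → 1 ≤ τ →
      |∑' j, hh (osc a τ) (FG33.lam m j) -
        1 / (2 * Real.pi) * (∫ y in Ioi (0 : ℝ), hh (osc a τ) y * y) -
        ∑ᶠ γ ∈ {γ : Γ | γ ≠ 1}, ∫ x in D, tj m.1.1 (osc a τ) γ 0 x * √(dt (m.1.1 x))| ≤
      C * Real.exp (C * ρ) * M / √τ := by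
  classical
  have hm := hm_of_Mt m
  obtain ⟨C1, hC1, h1⟩ := trace1 hX hO m h
  obtain ⟨C2, hC2, h2⟩ := high_bound hX hO hm 5
  obtain ⟨C3, hC3, h3⟩ := near_fin hX hO hm
  have hρ' := BGR_rho m
  refine ⟨C1 + C2 + C3 + C2 * C3, by positivity, fun a ρ M τ hρ ha hτ => ?_⟩
  have hM := amp_M_nonneg ha
  set S : Finset Γ := (h3 ρ hρ).1.toFinset with hS
  have hSn : near Γ D m.1.1 ρ ⊆ ↑S := by rw [hS, Finite.coe_toFinset]
  have hcard : (S.card : ℝ) ≤ C3 * Real.exp (C3 * ρ) := by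
    rw [hS, ← ncard_eq_toFinset_card _ (h3 ρ hρ).1]
    exact (h3 ρ hρ).2
  have h1mem : (1 : Γ) ∈ S := hSn (one_mem_near hX hm hρ)
  have e1 : ∑ᶠ γ ∈ {γ : Γ | γ ≠ 1}, ∫ x in D, tj m.1.1 (osc a τ) γ 0 x * √(dt (m.1.1 x))
      = ∑ γ ∈ S.erase 1, ∫ x in D, tj m.1.1 (osc a τ) γ 0 x * √(dt (m.1.1 x)) := by
    refine finsum_mem_eq_sum_of_inter_support_eq _ ?_
    ext γ
    simp only [mem_inter_iff, mem_ofPred_eq, Function.mem_support, Finset.mem_coe,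
      Finset.mem_erase]
    constructor
    · rintro ⟨h4, h5⟩
      refine ⟨⟨h4, ?_⟩, h5⟩
      by_contra h6
      exact h5 (tj_int_zero m (osc_smooth ha τ) hρ (osc_supp ha τ) (fun h7 => h6 (hSn h7)) 0)
    · rintro ⟨⟨h4, _⟩, h5⟩
      exact ⟨h4, h5⟩
  have e2 := identity_term hX m (osc_smooth ha τ) (osc_even ha τ) (osc_supp ha τ)
  have e3 : 1 / (2 * Real.pi) * (∫ y in Ioi (0 : ℝ), hh (osc a τ) y * y) +
      ∑ γ ∈ S.erase 1, ∫ x in D, tj m.1.1 (osc a τ) γ 0 x * √(dt (m.1.1 x))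
      = ∑ γ ∈ S, ∫ x in D, tj m.1.1 (osc a τ) γ 0 x * √(dt (m.1.1 x)) := by
    rw [← e2]
    exact Finset.add_sum_erase S (fun γ => ∫ x in D, tj m.1.1 (osc a τ) γ 0 x *
      √(dt (m.1.1 x))) h1mem
  have h4 := h1 a ρ M τ hρ ha hτ S hSn
  have h5 : |(∑ γ ∈ S, ∫ x in D, Kx m.1.1 5 (osc a τ) x (γ • x) * √(dt (m.1.1 x))) -
      ∑ γ ∈ S, ∫ x in D, tj m.1.1 (osc a τ) γ 0 x * √(dt (m.1.1 x))| ≤
      S.card * (C2 * Real.exp (C2 * ρ) * M / √τ) := by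
    rw [← Finset.sum_sub_distrib]
    refine (Finset.abs_sum_le_sum_abs _ _).trans ?_
    rw [← nsmul_eq_mul]
    refine Finset.sum_le_card_nsmul _ _ _ fun γ _ => ?_
    have c1 : Continuous fun x => Kx m.1.1 5 (osc a τ) x (γ • x) * √(dt (m.1.1 x)) :=
      (Kd_cont hX hO hm 5 (osc_smooth ha τ) (osc_even ha τ) (osc_supp ha τ) γ).mul hρ'
    have c2 : Continuous fun x => tj m.1.1 (osc a τ) γ 0 x * √(dt (m.1.1 x)) :=
      (tj_cont hX hO hm (osc_smooth ha τ) (osc_even ha τ) (osc_supp ha τ) γ 0).mul hρ'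
    rw [← integral_sub (Cmp_int hX c1) (Cmp_int hX c2), ← Real.norm_eq_abs]
    have h6 : ∫ x in D, (C2 * Real.exp (C2 * ρ) * M / √τ) * √(dt (m.1.1 x))
        = C2 * Real.exp (C2 * ρ) * M / √τ := by
      rw [integral_const_mul, m.2.area, mul_one]
    rw [← h6]
    refine norm_integral_le_of_norm_le ((Cmp_int hX hρ').const_mul _) ?_
    filter_upwards [ae_restrict_mem hX.meas] with x hx
    rw [← sub_mul, norm_mul, Real.norm_eq_abs, Real.norm_of_nonneg (Real.sqrt_nonneg _)]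
    exact mul_le_mul_of_nonneg_right (h2 a ρ M τ hρ ha hτ γ x (subset_closure hx))
      (Real.sqrt_nonneg _)
  rw [e1]
  have hτ1 : √τ ≤ τ := Real.sqrt_le_left (by linarith) |>.2 (by nlinarith)
  have hτ0 : 0 < √τ := Real.sqrt_pos.2 (by linarith)
  have h7 : C1 * Real.exp (C1 * ρ) * M / τ ≤ C1 * Real.exp (C1 * ρ) * M / √τ := by
    gcongr
  have h8 : (S.card : ℝ) * (C2 * Real.exp (C2 * ρ) * M / √τ)
      ≤ C2 * C3 * Real.exp ((C2 + C3) * ρ) * M / √τ := by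
    have h9 : 0 ≤ C2 * Real.exp (C2 * ρ) * M / √τ := by positivity
    calc (S.card : ℝ) * (C2 * Real.exp (C2 * ρ) * M / √τ)
        ≤ (C3 * Real.exp (C3 * ρ)) * (C2 * Real.exp (C2 * ρ) * M / √τ) := by gcongr
      _ = C2 * C3 * (Real.exp (C2 * ρ) * Real.exp (C3 * ρ)) * M / √τ := by ring
      _ = _ := by rw [← Real.exp_add, ← add_mul]
  have h10 : |∑' j, hh (osc a τ) (FG33.lam m j) -
        1 / (2 * Real.pi) * (∫ y in Ioi (0 : ℝ), hh (osc a τ) y * y) -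
        ∑ γ ∈ S.erase 1, ∫ x in D, tj m.1.1 (osc a τ) γ 0 x * √(dt (m.1.1 x))| ≤
      C1 * Real.exp (C1 * ρ) * M / √τ + C2 * C3 * Real.exp ((C2 + C3) * ρ) * M / √τ := by
    rw [sub_sub, e3]
    have h11 : ∑' j, hh (osc a τ) (FG33.lam m j) -
        ∑ γ ∈ S, ∫ x in D, tj m.1.1 (osc a τ) γ 0 x * √(dt (m.1.1 x))
        = (∑' j, hh (osc a τ) (FG33.lam m j) -
          ∑ γ ∈ S, ∫ x in D, Kx m.1.1 5 (osc a τ) x (γ • x) * √(dt (m.1.1 x))) +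
          ((∑ γ ∈ S, ∫ x in D, Kx m.1.1 5 (osc a τ) x (γ • x) * √(dt (m.1.1 x))) -
          ∑ γ ∈ S, ∫ x in D, tj m.1.1 (osc a τ) γ 0 x * √(dt (m.1.1 x))) := by ring
    rw [h11]
    exact (abs_add_le _ _).trans (add_le_add (h4.trans h7) (h5.trans h8))
  refine h10.trans ?_
  set C := C1 + C2 + C3 + C2 * C3 with hC
  have k1 : Real.exp (C1 * ρ) ≤ Real.exp (C * ρ) := by
    rw [Real.exp_le_exp]
    refine mul_le_mul_of_nonneg_right ?_ hρ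
    have : 0 ≤ C2 * C3 := by positivity
    linarith
  have k2 : Real.exp ((C2 + C3) * ρ) ≤ Real.exp (C * ρ) := by
    rw [Real.exp_le_exp]
    refine mul_le_mul_of_nonneg_right ?_ hρ
    have : 0 ≤ C2 * C3 := by positivity
    linarith
  calc C1 * Real.exp (C1 * ρ) * M / √τ + C2 * C3 * Real.exp ((C2 + C3) * ρ) * M / √τ
      ≤ C1 * Real.exp (C * ρ) * M / √τ + C2 * C3 * Real.exp (C * ρ) * M / √τ := by gcongr
    _ = (C1 + C2 * C3) * Real.exp (C * ρ) * M / √τ := by ring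
    _ ≤ C * Real.exp (C * ρ) * M / √τ := by
        gcongr
        linarith

end TR
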