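import Pool.Agent.LibTR29.T6

/-! The trace formula with the whole kernel. -/

open MeasureTheory Set Filter Topology
open scoped ContDiff

namespace TR

open BGS BR

variable {Γ : Type} [Group Γ] [MulAction Γ Pl] {D : Set Pl}

theorem trwe5 (hX : Surface Γ D) (hO : Ori Γ) (m : Mt Γ D) {e : ℕ → TestS Γ}
    (h : Bas hX m e) : ∃ C : ℝ, 0 < C ∧ ∀ (a : ℝ → ℂ) (ρ M τ : ℝ), 0 ≤ ρ → Amp a ρ M → 1 ≤ τ →
      |∑' j, hh (osc a τ) (FG33.lam m j) -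
        1 / (2 * Real.pi) * (∫ y in Ioi (0 : ℝ), hh (osc a τ) y * y) -
        ∑ᶠ γ ∈ {γ : Γ | γ ≠ 1}, ∫ x in D, KK (Gx m.1.1 x) 5 (osc a τ) (Vx m.1.1 x (γ • x)) *
          √(dt (m.1.1 x))| ≤ C * Real.exp (C * ρ) * M / √τ := by
  classical
  have hm := hm_of_Mt m
  obtain ⟨C1, hC1, h1⟩ := trace1 hX hO m h
  obtain ⟨C2, hC2, h2⟩ := high_bound hX hO hm 5
  obtain ⟨C3, hC3, h3⟩ := near_fin hX hO hm
  have hρ' := BGR_rho m
  refine ⟨C1 + C2, by positivity, fun a ρ M τ hρ ha hτ => ?_⟩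
  have hM := amp_M_nonneg ha
  set S : Finset Γ := (h3 ρ hρ).1.toFinset with hS
  have hSn : near Γ D m.1.1 ρ ⊆ ↑S := by rw [hS, Finite.coe_toFinset]
  have h1mem : (1 : Γ) ∈ S := hSn (one_mem_near hX hm hρ)
  have e1 : ∑ᶠ γ ∈ {γ : Γ | γ ≠ 1}, ∫ x in D, KK (Gx m.1.1 x) 5 (osc a τ)
      (Vx m.1.1 x (γ • x)) * √(dt (m.1.1 x))
      = ∑ γ ∈ S.erase 1, ∫ x in D, Kx m.1.1 5 (osc a τ) x (γ • x) * √(dt (m.1.1 x)) := by
    refine finsum_mem_eq_sum_of_inter_support_eq _ ?_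
    ext γ
    simp only [mem_inter_iff, mem_ofPred_eq, Function.mem_support, Finset.mem_coe,
      Finset.mem_erase]
    constructor
    · rintro ⟨h4, h5⟩
      refine ⟨⟨h4, ?_⟩, h5⟩
      by_contra h6
      exact h5 (Kx_int_zero m 5 (osc_smooth ha τ) hρ (osc_supp ha τ) (fun h7 => h6 (hSn h7)))
    · rintro ⟨⟨h4, _⟩, h5⟩
      exact ⟨h4, h5⟩
  have e2 := identity_term hX m (osc_smooth ha τ) (osc_even ha τ) (osc_supp ha τ)
  have e3 : (∫ x in D, Kx m.1.1 5 (osc a τ) x ((1 : Γ) • x) * √(dt (m.1.1 x))) +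
      ∑ γ ∈ S.erase 1, ∫ x in D, Kx m.1.1 5 (osc a τ) x (γ • x) * √(dt (m.1.1 x))
      = ∑ γ ∈ S, ∫ x in D, Kx m.1.1 5 (osc a τ) x (γ • x) * √(dt (m.1.1 x)) :=
    Finset.add_sum_erase S (fun γ => ∫ x in D, Kx m.1.1 5 (osc a τ) x (γ • x) *
      √(dt (m.1.1 x))) h1mem
  have h4 := h1 a ρ M τ hρ ha hτ S hSn
  have h5 : |(∫ x in D, Kx m.1.1 5 (osc a τ) x ((1 : Γ) • x) * √(dt (m.1.1 x))) -
      1 / (2 * Real.pi) * ∫ y in Ioi (0 : ℝ), hh (osc a τ) y * y| ≤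
      C2 * Real.exp (C2 * ρ) * M / √τ := by
    rw [← e2]
    have c1 : Continuous fun x => Kx m.1.1 5 (osc a τ) x ((1 : Γ) • x) * √(dt (m.1.1 x)) :=
      (Kd_cont hX hO hm 5 (osc_smooth ha τ) (osc_even ha τ) (osc_supp ha τ) (1 : Γ)).mul hρ'
    have c2 : Continuous fun x => tj m.1.1 (osc a τ) (1 : Γ) 0 x * √(dt (m.1.1 x)) :=
      (tj_cont hX hO hm (osc_smooth ha τ) (osc_even ha τ) (osc_supp ha τ) (1 : Γ) 0).mul hρ'
    rw [← integral_sub (Cmp_int hX c1) (Cmp_int hX c2), ← Real.norm_eq_abs]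
    have h6 : ∫ x in D, (C2 * Real.exp (C2 * ρ) * M / √τ) * √(dt (m.1.1 x))
        = C2 * Real.exp (C2 * ρ) * M / √τ := by
      rw [integral_const_mul, m.2.area, mul_one]
    rw [← h6]
    refine norm_integral_le_of_norm_le ((Cmp_int hX hρ').const_mul _) ?_
    filter_upwards [ae_restrict_mem hX.meas] with x hx
    rw [← sub_mul, norm_mul, Real.norm_eq_abs, Real.norm_of_nonneg (Real.sqrt_nonneg _)]
    exact mul_le_mul_of_nonneg_right (h2 a ρ M τ hρ ha hτ 1 x (subset_closure hx))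
      (Real.sqrt_nonneg _)
  rw [e1]
  have hτ1 : √τ ≤ τ := Real.sqrt_le_left (by linarith) |>.2 (by nlinarith)
  have hτ0 : 0 < √τ := Real.sqrt_pos.2 (by linarith)
  have h7 : C1 * Real.exp (C1 * ρ) * M / τ ≤ C1 * Real.exp (C1 * ρ) * M / √τ := by
    gcongr
  have h10 : |∑' j, hh (osc a τ) (FG33.lam m j) -
        1 / (2 * Real.pi) * (∫ y in Ioi (0 : ℝ), hh (osc a τ) y * y) -
        ∑ γ ∈ S.erase 1, ∫ x in D, Kx m.1.1 5 (osc a τ) x (γ • x) * √(dt (m.1.1 x))| ≤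
      C1 * Real.exp (C1 * ρ) * M / √τ + C2 * Real.exp (C2 * ρ) * M / √τ := by
    have h11 : ∑' j, hh (osc a τ) (FG33.lam m j) -
        1 / (2 * Real.pi) * (∫ y in Ioi (0 : ℝ), hh (osc a τ) y * y) -
        ∑ γ ∈ S.erase 1, ∫ x in D, Kx m.1.1 5 (osc a τ) x (γ • x) * √(dt (m.1.1 x))
        = (∑' j, hh (osc a τ) (FG33.lam m j) -
          ∑ γ ∈ S, ∫ x in D, Kx m.1.1 5 (osc a τ) x (γ • x) * √(dt (m.1.1 x))) +
          ((∫ x in D, Kx m.1.1 5 (osc a τ) x ((1 : Γ) • x) * √(dt (m.1.1 x))) -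
          1 / (2 * Real.pi) * ∫ y in Ioi (0 : ℝ), hh (osc a τ) y * y) := by
      rw [← e3]
      ring
    rw [h11]
    exact (abs_add_le _ _).trans (add_le_add (h4.trans h7) h5)
  refine h10.trans ?_
  have k1 : Real.exp (C1 * ρ) ≤ Real.exp ((C1 + C2) * ρ) := by
    rw [Real.exp_le_exp]
    exact mul_le_mul_of_nonneg_right (by linarith) hρ
  have k2 : Real.exp (C2 * ρ) ≤ Real.exp ((C1 + C2) * ρ) := by
    rw [Real.exp_le_exp]
    exact mul_le_mul_of_nonneg_right (by linarith) hρ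
  calc C1 * Real.exp (C1 * ρ) * M / √τ + C2 * Real.exp (C2 * ρ) * M / √τ
      ≤ C1 * Real.exp ((C1 + C2) * ρ) * M / √τ + C2 * Real.exp ((C1 + C2) * ρ) * M / √τ := by
        gcongr
    _ = _ := by ring

end TR
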