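import Pool.Agent.LibTR29.T7
import Pool.Agent.LibBR73.AN11
import Pool.Agent.LibBRS.A2
import Pool.Agent.LibBRS.A6
import Pool.Agent.LibBRS.B1

/-! The trace formula. -/

open MeasureTheory Set Filter Topology
open scoped ContDiff

namespace TR

open BGS BR

variable {Γ : Type} [Group Γ] [MulAction Γ Pl] {D : Set Pl}

/-- The basis of eigenfunctions is complete for continuous functions. -/
theorem bas_of (hX : Surface Γ D) (m : Mt Γ D) {e : ℕ → TestS Γ} (h : BRS.IsBas hX m e) :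
    Bas hX m e where
  eig := fun j v => h.eig j v
  orth := h.orth
  compl := by
    intro u hu h0
    have hmeas : AEStronglyMeasurable u (volume.restrict D) := hu.aestronglyMeasurable
    have h2 : IntegrableOn (fun z => u z ^ 2) D := Cmp_int hX (hu.pow 2)
    have h3 := BRS.parseval hX m h hmeas h2
    simp only [h0] at h3
    have h4 : HasSum (fun _ : ℕ => (0 : ℝ) ^ 2) 0 := by
      simp
    exact h3.unique h4
  nonneg := fun j => ENNReal.toReal_nonneg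
  grow := BRS.growth hX m

theorem exists_Bas (hX : Surface Γ D) (m : Mt Γ D) : ∃ e : ℕ → TestS Γ, Bas hX m e := by
  obtain ⟨e, he⟩ := BRS.exists_bas hX m
  exact ⟨e, bas_of hX m he⟩

theorem osc_Tl {a : ℝ → ℂ} {ρ M : ℝ} (ha : Amp a ρ M) (τ : ℝ) : Tl (osc a τ) ρ where
  smooth := osc_smooth ha τ
  supp := fun t ht => osc_supp ha τ t (ht.trans_le (le_abs_self t))

/-- The sum over the nontrivial elements of the group. -/
theorem tsum_IK (hX : Surface Γ D) (hO : Ori Γ) (m : Mt Γ D) {q : ℝ → ℝ} {ρ : ℝ} (hρ : 0 ≤ ρ)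
    (hq : Tl q ρ) : ∑' γ : {γ : Γ // γ ≠ 1}, IK D m.1.1 q γ.1 =
      ∑ᶠ γ ∈ {γ : Γ | γ ≠ 1}, IK D m.1.1 q γ := by
  obtain ⟨C, hC⟩ := Sh_fin hX hO (hm_of_Mt m)
  have hfin := (hC ρ hρ).1
  have h1 : (Function.support fun γ : {γ : Γ // γ ≠ 1} => IK D m.1.1 q γ.1).Finite := by
    refine (hfin.preimage (f := fun γ : {γ : Γ // γ ≠ 1} => γ.1)
      (Subtype.val_injective.injOn)).subset ?_
    intro γ hγ
    by_contra h2
    exact hγ (KK_supp hX hO m hρ hq γ.2 h2)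
  rw [tsum_eq_finsum h1]
  exact finsum_set_coe_eq_finsum_mem (f := fun γ => IK D m.1.1 q γ) {γ : Γ | γ ≠ 1}

/-- The trace formula for the window functions, with an error term. -/
theorem trace_formula (hX : Surface Γ D) (hO : Ori Γ) (m : Mt Γ D) :
    ∃ C : ℝ, 0 < C ∧ ∀ (rep g0 : ConjClasses Γ → Γ) (x0 v0 : ConjClasses Γ → Pl)
      (l l0 : ConjClasses Γ → ℝ), CD m.1.1 rep g0 x0 v0 l l0 →
      ∀ (a : ℝ → ℂ) (ρ M τ : ℝ), 0 ≤ ρ → Amp a ρ M → 1 ≤ τ →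
      |∑' j, hh (osc a τ) (FG33.lam m j) -
        1 / (2 * Real.pi) * (∫ y in Ioi (0 : ℝ), hh (osc a τ) y * y) -
        ∑ᶠ c ∈ {c : ConjClasses Γ | c ≠ 1},
          l0 c * osc a τ (l c) / √(trM m.1.1 (x0 c) (v0 c) (l c) - 2)| ≤
        C * Real.exp (C * ρ) * M / √τ := by
  obtain ⟨e, he⟩ := exists_Bas hX m
  obtain ⟨C1, hC1, h1⟩ := trwe5 hX hO m he
  obtain ⟨C2, h2⟩ := geodesic_part hX hO m
  refine ⟨C1 + |C2|, by positivity, fun rep g0 x0 v0 l l0 hCD a ρ M τ hρ ha hτ => ?_⟩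
  have hM := amp_M_nonneg ha
  have h3 := h1 a ρ M τ hρ ha hτ
  have h4 := h2 rep g0 x0 v0 l l0 hCD a ρ M τ hρ ha hτ
  rw [tsum_IK hX hO m hρ (osc_Tl ha τ)] at h4
  have h5 : (∑ᶠ γ ∈ {γ : Γ | γ ≠ 1}, IK D m.1.1 (osc a τ) γ) =
      ∑ᶠ γ ∈ {γ : Γ | γ ≠ 1}, ∫ x in D, KK (Gx m.1.1 x) 5 (osc a τ) (Vx m.1.1 x (γ • x)) *
          √(dt (m.1.1 x)) := rfl
  rw [h5] at h4
  have hτ0 : 0 < √τ := Real.sqrt_pos.2 (by linarith)
  have k1 : Real.exp (C1 * ρ) ≤ Real.exp ((C1 + |C2|) * ρ) := by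
    rw [Real.exp_le_exp]
    exact mul_le_mul_of_nonneg_right (by linarith [abs_nonneg C2]) hρ
  have k2 : Real.exp (C2 * ρ) ≤ Real.exp ((C1 + |C2|) * ρ) := by
    rw [Real.exp_le_exp]
    exact mul_le_mul_of_nonneg_right (by linarith [le_abs_self C2]) hρ
  have k3 : C2 * Real.exp (C2 * ρ) * M / √τ ≤ |C2| * Real.exp ((C1 + |C2|) * ρ) * M / √τ := by
    have := le_abs_self C2
    gcongr
  have k4 : C1 * Real.exp (C1 * ρ) * M / √τ ≤ C1 * Real.exp ((C1 + |C2|) * ρ) * M / √τ := by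
    gcongr
  have h6 := abs_add_le _ _ |>.trans (add_le_add (h3.trans k4) (h4.trans k3))
  rw [sub_add_sub_cancel] at h6
  refine h6.trans (le_of_eq ?_)
  ring

end TR
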