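import Pool.Agent.LibTR29.T1

/-! The coefficients of the periodised kernel. -/

open MeasureTheory Set Filter Topology
open scoped ContDiff

namespace TR

open BGS BR

variable {Γ : Type} [Group Γ] [MulAction Γ Pl] {D : Set Pl}

/-- The error term of the exact formula. -/
noncomputable def Er (m : Pl → Co) (N : ℕ) (lam : ℝ) (g : ℝ → ℝ) (U : Pl → ℝ) (x : Pl) : ℝ :=
  ∫ v, LL (Gx m x) (UU (Gx m x) N) v * Ab N (ql lam g) (sg v) * U (Ex m x v) * wt (Gx m x) v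

theorem coef (hX : Surface Γ D) (m : Mt Γ D) (N : ℕ) {lam : ℝ} {U : TestS Γ}
    (h : EigS hX m (lam ^ 2) U) {g : ℝ → ℝ} (hg : ContDiff ℝ ∞ g) (he : ∀ t, g (-t) = g t)
    {ρ : ℝ} (hρ : 0 ≤ ρ) (hs : ∀ t, ρ < |t| → g t = 0) (x : Pl) :
    bF hX m (oneT Γ) U (Px hX (hm_of_Mt m) N hg he hρ hs x) =
      hh g lam * U.1 x - Er m.1.1 N lam g U.1 x := by
  have hm := hm_of_Mt m
  have h1 := identity hX m N h hg he hρ hs x
  have h2 := cv hX hm x (fun z => Kx m.1.1 N g x z * U.1 z)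
  have h3 : ∫ v, Kx m.1.1 N g x (Ex m.1.1 x v) * U.1 (Ex m.1.1 x v) * wt (Gx m.1.1 x) v
      = ∫ v, KK (Gx m.1.1 x) N g v * U.1 (Ex m.1.1 x v) * wt (Gx m.1.1 x) v := by
    refine integral_congr_ae (Eventually.of_forall fun v => ?_)
    dsimp only
    unfold Kx
    rw [Vx_Ex hX hm x v]
  have h4 := per_int hX m (Kx_smooth hX hm N hg he hs x) (Kx_compact hX hm N hg hρ hs x)
    (g := U.1) U.2.1.continuous U.2.2
  have h5 : bF hX m (oneT Γ) U (Px hX hm N hg he hρ hs x)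
      = ∫ z in D, per Γ (Kx m.1.1 N g x) z * U.1 z * √(dt (m.1.1 z)) := by
    rw [bF_apply]
    refine integral_congr_ae (Eventually.of_forall fun z => ?_)
    show (1 : ℝ) * U.1 z * per Γ (Kx m.1.1 N g x) z * √(dt (m.1.1 z)) = _
    ring
  rw [h5, h4]
  rw [h3] at h2
  unfold Er
  linarith

theorem EigS_of (hX : Surface Γ D) (m : Mt Γ D) {e : ℕ → TestS Γ} (h : Bas hX m e) (j : ℕ) :
    EigS hX m (FG33.lam m j ^ 2) (e j) := by
  intro f
  rw [h.eig j f]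
  congr 1
  unfold FG33.lam
  rw [Real.sq_sqrt]
  have := h.nonneg j
  have := Real.pi_pos
  positivity

theorem bF_self {hX : Surface Γ D} {m : Mt Γ D} {e : ℕ → TestS Γ} (h : Bas hX m e) (j : ℕ) :
    bF hX m (oneT Γ) (e j) (e j) = 1 := by
  rw [h.orth, if_pos rfl]

theorem Lev_of {hX : Surface Γ D} {m : Mt Γ D} {e : ℕ → TestS Γ} (h : Bas hX m e) :
    GWin.Lev (FG33.lam m) := by
  refine ⟨fun n => Real.sqrt_nonneg _, ?_⟩
  obtain ⟨c, hc, hg⟩ := h.grow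
  have hpi := Real.pi_pos
  refine ⟨√(4 * Real.pi * c), by positivity, fun n => ?_⟩
  unfold FG33.lam
  rw [← Real.sqrt_mul (by positivity)]
  have h1 : √(4 * Real.pi * c * n) ≤ √(4 * Real.pi * x m n) := by
    refine Real.sqrt_le_sqrt ?_
    have := hg n
    calc 4 * Real.pi * c * n = 4 * Real.pi * (c * n) := by ring
      _ ≤ _ := by gcongr
  linarith

/-- Uniform bound of the eigenfunctions. -/
theorem sup_e (hX : Surface Γ D) (hO : Ori Γ) (m : Mt Γ D) {e : ℕ → TestS Γ} (h : Bas hX m e) :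
    ∃ C : ℝ, 0 < C ∧ ∀ j x, |(e j).1 x| ≤ C * (1 + FG33.lam m j) ^ 2 := by
  obtain ⟨C, hC⟩ := sup_bound hX hO m
  refine ⟨|C| + 1, by positivity, fun j x => ?_⟩
  have h1 := hC (FG33.lam m j) (e j) (Real.sqrt_nonneg _) (EigS_of hX m h j) x
  rw [bF_self h, Real.sqrt_one, mul_one] at h1
  refine h1.trans ?_
  have h2 : 0 ≤ (1 + FG33.lam m j) ^ 2 := by positivity
  have h3 := le_abs_self C
  nlinarith

/-- Summability. -/
theorem zsum3 {κ : ℕ → ℝ} (h : GWin.Lev κ) : Summable fun n => 1 / (κ n + 1) ^ 3 := by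
  obtain ⟨c, hc, hg⟩ := h.grow
  have h1 : Summable fun n : ℕ => 1 / c ^ 3 * (1 / (n : ℝ) ^ (3 / 2 : ℝ)) :=
    (Real.summable_one_div_nat_rpow.mpr (by norm_num)).mul_left _
  refine Summable.of_norm_bounded_eventually_nat h1 ?_
  filter_upwards [eventually_ge_atTop 1] with n hn
  have h2 := h.nn n
  have hn' : (1 : ℝ) ≤ n := by exact_mod_cast hn
  have h3 : (c * √n) ^ 3 ≤ (κ n + 1) ^ 3 := by
    have := hg n
    gcongr
  have h4 : (c * √(n : ℝ)) ^ 3 = c ^ 3 * (n : ℝ) ^ (3 / 2 : ℝ) := by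
    rw [mul_pow]
    congr 1
    rw [Real.sqrt_eq_rpow, ← Real.rpow_natCast, ← Real.rpow_mul (by positivity)]
    norm_num
  rw [Real.norm_of_nonneg (by positivity)]
  rw [show 1 / c ^ 3 * (1 / (n : ℝ) ^ (3 / 2 : ℝ)) = 1 / (c ^ 3 * (n : ℝ) ^ (3 / 2 : ℝ)) by
    field_simp]
  refine one_div_le_one_div_of_le (by positivity) ?_
  rw [← h4]
  exact h3

end TR
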