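import Pool.Agent.LibTR29.T3

/-! Sums over the levels, and the pointwise estimate of the periodised kernel on the diagonal. -/

open MeasureTheory Set Filter Topology
open scoped ContDiff

namespace TR

open BGS BR

variable {Γ : Type} [Group Γ] [MulAction Γ Pl] {D : Set Pl}

/-- The weights of the error terms. -/
noncomputable def wgt (y τ : ℝ) : ℝ := 1 / ((1 + y ^ 4) * (1 + |y - τ|))

theorem four_le {y : ℝ} (hy : 0 ≤ y) : (y + 1) ^ 4 ≤ 8 * (1 + y ^ 4) := by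
  have := add_pow_le hy zero_le_one 4
  norm_num at this
  linarith

theorem wgt_nonneg (y τ : ℝ) : 0 ≤ wgt y τ := by
  unfold wgt
  have := abs_nonneg (y - τ)
  positivity

theorem wgt_le {y τ : ℝ} (hy : 0 ≤ y) (hτ : 1 ≤ τ) : wgt y τ ≤ 8 / τ * (1 / (y + 1) ^ 3) := by
  unfold wgt
  have h0 := abs_nonneg (y - τ)
  have h1 : τ ≤ (1 + |y - τ|) * (y + 1) := by
    have := neg_abs_le (y - τ)
    nlinarith [mul_nonneg h0 hy]
  have h2 := four_le hy
  rw [div_mul_div_comm, div_le_div_iff₀ (by positivity) (by positivity)]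
  have h3 : τ * (y + 1) ^ 3 ≤ (1 + |y - τ|) * (y + 1) ^ 4 := by
    calc τ * (y + 1) ^ 3 ≤ (1 + |y - τ|) * (y + 1) * (y + 1) ^ 3 := by gcongr
      _ = _ := by ring
  calc 1 * (τ * (y + 1) ^ 3) ≤ (1 + |y - τ|) * (y + 1) ^ 4 := by linarith
    _ ≤ (1 + |y - τ|) * (8 * (1 + y ^ 4)) := by gcongr
    _ = _ := by ring

theorem wgt_le2 {y τ : ℝ} (hy : 0 ≤ y) (hτ : 1 ≤ τ) :
    wgt y τ * (1 + y) ^ 2 ≤ 8 * (1 + τ) * (1 / (y + 1) ^ 3) := by
  unfold wgt
  have h0 := abs_nonneg (y - τ)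
  have h1 : 1 + y ≤ (1 + |y - τ|) * (1 + τ) := by
    have := le_abs_self (y - τ)
    nlinarith [mul_nonneg h0 (by linarith : (0 : ℝ) ≤ τ)]
  have h2 := four_le hy
  rw [div_mul_eq_mul_div, mul_one_div, div_le_div_iff₀ (by positivity) (by positivity)]
  calc 1 * (1 + y) ^ 2 * (y + 1) ^ 3 = (1 + y) * (y + 1) ^ 4 := by ring
    _ ≤ ((1 + |y - τ|) * (1 + τ)) * (8 * (1 + y ^ 4)) := by gcongr
    _ = _ := by ring

theorem wsum {κ : ℕ → ℝ} (h : GWin.Lev κ) : ∃ C : ℝ, 0 ≤ C ∧ ∀ τ : ℝ, 1 ≤ τ →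
    Summable (fun j => wgt (κ j) τ) ∧ ∑' j, wgt (κ j) τ ≤ C / τ := by
  have hz := zsum3 h
  refine ⟨8 * ∑' n, 1 / (κ n + 1) ^ 3, ?_, fun τ hτ => ?_⟩
  · refine mul_nonneg (by norm_num) (tsum_nonneg fun n => ?_)
    have := h.nn n
    positivity
  have hz' : Summable fun n => 8 / τ * (1 / (κ n + 1) ^ 3) := hz.mul_left _
  have h1 : Summable fun j => wgt (κ j) τ :=
    Summable.of_nonneg_of_le (fun j => wgt_nonneg _ _) (fun j => wgt_le (h.nn j) hτ) hz'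
  refine ⟨h1, (h1.tsum_le_tsum (fun j => wgt_le (h.nn j) hτ) hz').trans (le_of_eq ?_)⟩
  rw [tsum_mul_left]
  ring

theorem osc_supp {a : ℝ → ℂ} {ρ M : ℝ} (ha : Amp a ρ M) (τ : ℝ) (t : ℝ) (ht : ρ < |t|) :
    osc a τ t = 0 := by
  unfold osc
  rw [ha.supp t ht, mul_zero, Complex.zero_re]

/-- The periodised kernel of an oscillating test function. -/
noncomputable def Pa (hX : Surface Γ D) (m : Mt Γ D) (N : ℕ) {a : ℝ → ℂ} {ρ M : ℝ} (hρ : 0 ≤ ρ)
    (ha : Amp a ρ M) (τ : ℝ) (x : Pl) : TestS Γ :=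
  Px hX (hm_of_Mt m) N (osc_smooth ha τ) (osc_even ha τ) hρ (osc_supp ha τ) x

theorem amp_M_nonneg {a : ℝ → ℂ} {ρ M : ℝ} (ha : Amp a ρ M) : 0 ≤ M :=
  (norm_nonneg _).trans (ha.bound 0 (by norm_num) 0)

theorem Er_bound (hX : Surface Γ D) (hO : Ori Γ) (m : Mt Γ D) {e : ℕ → TestS Γ}
    (h : Bas hX m e) : ∃ C : ℝ, 0 < C ∧ ∀ (j : ℕ) (a : ℝ → ℂ) (ρ M τ : ℝ), 0 ≤ ρ → Amp a ρ M →
      1 ≤ τ → ∀ x ∈ closure D, |Er m.1.1 5 (FG33.lam m j) (osc a τ) (e j).1 x| ≤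
        C * Real.exp (C * ρ) * M * wgt (FG33.lam m j) τ := by
  obtain ⟨C, hC⟩ := Eterm hX hO m
  refine ⟨|C| + 1, by positivity, fun j a ρ M τ hρ ha hτ x hx => ?_⟩
  have h1 := hC (FG33.lam m j) (e j) (Real.sqrt_nonneg _) (EigS_of hX m h j) a ρ M τ hρ ha hτ x hx
  rw [bF_self h, Real.sqrt_one, mul_one] at h1
  have hM := amp_M_nonneg ha
  unfold Er
  refine h1.trans ?_
  have hc : C ≤ |C| + 1 := (le_abs_self C).trans (by linarith)
  have h2 : C * Real.exp (C * ρ) ≤ (|C| + 1) * Real.exp ((|C| + 1) * ρ) := by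
    gcongr
  unfold wgt
  rw [mul_one_div]
  have := abs_nonneg (FG33.lam m j - τ)
  gcongr

theorem diag (hX : Surface Γ D) (hO : Ori Γ) (m : Mt Γ D) {e : ℕ → TestS Γ}
    (h : Bas hX m e) : ∃ C : ℝ, 0 < C ∧ ∀ (a : ℝ → ℂ) (ρ M τ : ℝ) (hρ : 0 ≤ ρ)
      (ha : Amp a ρ M), 1 ≤ τ → ∀ x ∈ closure D,
      |(Pa hX m 5 hρ ha τ x).1 x - ∑' j, hh (osc a τ) (FG33.lam m j) * (e j).1 x ^ 2| ≤
        ∑' j, C * Real.exp (C * ρ) * M * wgt (FG33.lam m j) τ * |(e j).1 x| := by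
  obtain ⟨C, hC, hE⟩ := Er_bound hX hO m h
  obtain ⟨C1, hC1, hsup⟩ := sup_e hX hO m h
  refine ⟨C, hC, fun a ρ M τ hρ ha hτ x hx => ?_⟩
  have hL := Lev_of h
  have hz := zsum3 hL
  have hM := amp_M_nonneg ha
  obtain ⟨C7, hC7⟩ := hh_decay (osc_smooth ha τ) (osc_supp ha τ) 7
  set A := C * Real.exp (C * ρ) * M with hA
  have hA0 : 0 ≤ A := by positivity
  have hcoef : ∀ j, bF hX m (oneT Γ) (e j) (Pa hX m 5 hρ ha τ x)
      = hh (osc a τ) (FG33.lam m j) * (e j).1 x - Er m.1.1 5 (FG33.lam m j) (osc a τ) (e j).1 x :=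
    fun j => coef hX m 5 (EigS_of hX m h j) (osc_smooth ha τ) (osc_even ha τ) hρ (osc_supp ha τ) x
  have hEj : ∀ j, |Er m.1.1 5 (FG33.lam m j) (osc a τ) (e j).1 x| ≤ A * wgt (FG33.lam m j) τ :=
    fun j => hE j a ρ M τ hρ ha hτ x hx
  have hh7 : ∀ j, |hh (osc a τ) (FG33.lam m j)| * (1 + FG33.lam m j) ^ 4
      ≤ C7 * (1 / (FG33.lam m j + 1) ^ 3) := by
    intro j
    have h1 := hC7 (FG33.lam m j)
    have h2 := hL.nn j
    rw [abs_of_nonneg h2] at h1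
    rw [mul_one_div, le_div_iff₀ (by positivity)]
    refine le_trans (le_of_eq ?_) h1
    ring
  -- summability of the error
  have hs1 : Summable fun j => A * wgt (FG33.lam m j) τ * (1 + FG33.lam m j) ^ 2 := by
    refine Summable.of_nonneg_of_le (fun j => ?_) (fun j => ?_)
      (hz.mul_left (A * (8 * (1 + τ))))
    · have := wgt_nonneg (FG33.lam m j) τ
      positivity
    · have := wgt_le2 (hL.nn j) hτ
      calc A * wgt (FG33.lam m j) τ * (1 + FG33.lam m j) ^ 2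
          = A * (wgt (FG33.lam m j) τ * (1 + FG33.lam m j) ^ 2) := by ring
        _ ≤ A * (8 * (1 + τ) * (1 / (FG33.lam m j + 1) ^ 3)) := by gcongr
        _ = _ := by ring
  have hs2 : Summable fun j => |hh (osc a τ) (FG33.lam m j)| * (1 + FG33.lam m j) ^ 4 := by
    refine Summable.of_nonneg_of_le (fun j => by positivity) hh7 (hz.mul_left C7)
  have hs : Summable fun j => |bF hX m (oneT Γ) (e j) (Pa hX m 5 hρ ha τ x)| *
      (1 + FG33.lam m j) ^ 2 := by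
    refine Summable.of_nonneg_of_le (fun j => by positivity) (fun j => ?_)
      ((hs2.mul_left C1).add hs1)
    rw [hcoef]
    have h2 := hsup j x
    have h3 := hEj j
    have h4 : 0 ≤ (1 + FG33.lam m j) ^ 2 := by positivity
    calc |hh (osc a τ) (FG33.lam m j) * (e j).1 x -
          Er m.1.1 5 (FG33.lam m j) (osc a τ) (e j).1 x| * (1 + FG33.lam m j) ^ 2
        ≤ (|hh (osc a τ) (FG33.lam m j)| * |(e j).1 x| +
          |Er m.1.1 5 (FG33.lam m j) (osc a τ) (e j).1 x|) * (1 + FG33.lam m j) ^ 2 := by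
          refine mul_le_mul_of_nonneg_right ?_ h4
          rw [← abs_mul]
          exact abs_sub _ _
      _ ≤ (|hh (osc a τ) (FG33.lam m j)| * (C1 * (1 + FG33.lam m j) ^ 2) +
          A * wgt (FG33.lam m j) τ) * (1 + FG33.lam m j) ^ 2 := by
          gcongr
      _ = _ := by ring
  have hexp := expand hX hO m h (Pa hX m 5 hρ ha τ x) hs x
  -- the two series
  have hsA : Summable fun j => hh (osc a τ) (FG33.lam m j) * (e j).1 x ^ 2 := by
    refine Summable.of_norm_bounded (hs2.mul_left (C1 ^ 2)) fun j => ?_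
    have h2 := hsup j x
    rw [norm_mul, norm_pow, Real.norm_eq_abs, Real.norm_eq_abs]
    calc |hh (osc a τ) (FG33.lam m j)| * |(e j).1 x| ^ 2
        ≤ |hh (osc a τ) (FG33.lam m j)| * (C1 * (1 + FG33.lam m j) ^ 2) ^ 2 := by gcongr
      _ = _ := by ring
  have hsB : Summable fun j => A * wgt (FG33.lam m j) τ * |(e j).1 x| := by
    refine Summable.of_nonneg_of_le (fun j => ?_) (fun j => ?_) (hs1.mul_left C1)
    · have := wgt_nonneg (FG33.lam m j) τ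
      positivity
    · have h2 := hsup j x
      have h5 := wgt_nonneg (FG33.lam m j) τ
      calc A * wgt (FG33.lam m j) τ * |(e j).1 x|
          ≤ A * wgt (FG33.lam m j) τ * (C1 * (1 + FG33.lam m j) ^ 2) := by gcongr
        _ = _ := by ring
  have hdiff := hexp.sub hsA.hasSum
  have hb : ∀ j, ‖bF hX m (oneT Γ) (e j) (Pa hX m 5 hρ ha τ x) * (e j).1 x -
      hh (osc a τ) (FG33.lam m j) * (e j).1 x ^ 2‖ ≤ A * wgt (FG33.lam m j) τ * |(e j).1 x| := by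
    intro j
    rw [hcoef]
    have h3 := hEj j
    have h4 : (hh (osc a τ) (FG33.lam m j) * (e j).1 x -
        Er m.1.1 5 (FG33.lam m j) (osc a τ) (e j).1 x) * (e j).1 x -
        hh (osc a τ) (FG33.lam m j) * (e j).1 x ^ 2
        = -(Er m.1.1 5 (FG33.lam m j) (osc a τ) (e j).1 x * (e j).1 x) := by ring
    rw [h4, norm_neg, norm_mul, Real.norm_eq_abs, Real.norm_eq_abs]
    gcongr
  have h6 := tsum_of_norm_bounded hsB.hasSum hb
  rw [hdiff.tsum_eq, Real.norm_eq_abs] at h6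
  exact h6

end TR
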