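import Pool.Agent.LibTR29.T4

/-! The trace of the parametrix as a finite sum. -/

open MeasureTheory Set Filter Topology
open scoped ContDiff

namespace TR

open BGS BR

variable {Γ : Type} [Group Γ] [MulAction Γ Pl] {D : Set Pl}

/-- The deck transformations that contribute. -/
def near (Γ : Type) [Group Γ] [MulAction Γ Pl] (D : Set Pl) (m : Pl → Co) (R : ℝ) : Set Γ :=
  {γ : Γ | ∃ x ∈ closure D, ∃ y ∈ closure D, eu (Vx m x (γ • y)) ≤ R}

theorem Vd_smooth (hX : Surface Γ D) {m : Pl → Co} (hm : HM Γ m) (γ : Γ) :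
    ContDiff ℝ ∞ fun x : Pl => Vx m x (γ • x) :=
  (Vx_smooth hX hm).comp (contDiff_id.prodMk (hX.smooth γ))

theorem UU_joint (hX : Surface Γ D) (hO : Ori Γ) {m : Pl → Co} (hm : HM Γ m) (j : ℕ) :
    ContDiff ℝ ∞ fun p : Pl × Pl => UU (Gx m p.1) j p.2 :=
  (RB_UU (Fam_Gx hX hO hm) j).1

theorem Td_cont (hX : Surface Γ D) (hO : Ori Γ) {m : Pl → Co} (hm : HM Γ m) {g : ℝ → ℝ}
    (hg : ContDiff ℝ ∞ g) (he : ∀ t, g (-t) = g t) {ρ : ℝ} (hs : ∀ t, ρ < |t| → g t = 0)
    (γ : Γ) (j : ℕ) :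
    Continuous fun x : Pl => UU (Gx m x) j (Vx m x (γ • x)) * Ab j g (sg (Vx m x (γ • x))) := by
  have h1 := (Vd_smooth hX hm γ).continuous
  have h2 : Continuous fun x : Pl => UU (Gx m x) j (Vx m x (γ • x)) :=
    (UU_joint hX hO hm j).continuous.comp (continuous_id.prodMk h1)
  have h3 : ContDiff ℝ ∞ fun v : Pl => Ab j g (sg v) := by
    have := Ab_even hg he hs j
    exact this
  exact h2.mul (h3.continuous.comp h1)

theorem Kd_cont (hX : Surface Γ D) (hO : Ori Γ) {m : Pl → Co} (hm : HM Γ m) (N : ℕ) {g : ℝ → ℝ}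
    (hg : ContDiff ℝ ∞ g) (he : ∀ t, g (-t) = g t) {ρ : ℝ} (hs : ∀ t, ρ < |t| → g t = 0)
    (γ : Γ) : Continuous fun x : Pl => Kx m N g x (γ • x) := by
  have h1 : (fun x : Pl => Kx m N g x (γ • x)) = fun x => ∑ j ∈ Finset.range (N + 1),
      UU (Gx m x) j (Vx m x (γ • x)) * Ab j g (sg (Vx m x (γ • x))) := rfl
  rw [h1]
  exact continuous_finsetSum _ fun j _ => Td_cont hX hO hm hg he hs γ j

theorem diag_eq (hX : Surface Γ D) (m : Mt Γ D) (N : ℕ) {a : ℝ → ℂ} {ρ M : ℝ} (hρ : 0 ≤ ρ)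
    (ha : Amp a ρ M) (τ : ℝ) {S : Finset Γ} (hS : near Γ D m.1.1 ρ ⊆ ↑S) {x : Pl}
    (hx : x ∈ closure D) :
    (Pa hX m N hρ ha τ x).1 x = ∑ γ ∈ S, Kx m.1.1 N (osc a τ) x (γ • x) := by
  show per Γ (Kx m.1.1 N (osc a τ) x) x = _
  unfold per
  refine finsum_eq_sum_of_support_subset _ fun γ hγ => ?_
  refine hS ?_
  rw [Function.mem_support] at hγ
  refine ⟨x, hx, x, hx, ?_⟩
  by_contra h1
  rw [not_le] at h1
  exact hγ (Kx_zero m.1.1 N (osc_smooth ha τ) hρ (osc_supp ha τ) h1)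

theorem int_abs_e {hX : Surface Γ D} {m : Mt Γ D} {e : ℕ → TestS Γ} (h : Bas hX m e) (j : ℕ) :
    ∫ z in D, |(e j).1 z| * √(dt (m.1.1 z)) ≤ 1 := by
  have hρ := BGR_rho m
  have he : Continuous (e j).1 := (e j).2.1.continuous
  have h1 : Continuous fun z => (e j).1 z ^ 2 * √(dt (m.1.1 z)) := (he.pow 2).mul hρ
  have h2 : ∫ z in D, (e j).1 z ^ 2 * √(dt (m.1.1 z)) = 1 := by
    rw [← bF_self h j, bF_apply]
    refine integral_congr_ae (Eventually.of_forall fun z => ?_)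
    show _ = (1 : ℝ) * (e j).1 z * (e j).1 z * √(dt (m.1.1 z))
    ring
  have h3 : ∫ z in D, √(dt (m.1.1 z)) = 1 := m.2.area
  have h4 : ∫ z in D, |(e j).1 z| * √(dt (m.1.1 z))
      ≤ ∫ z in D, (1 / 2 * ((e j).1 z ^ 2 * √(dt (m.1.1 z))) + 1 / 2 * √(dt (m.1.1 z))) := by
    refine integral_mono (Cmp_int hX (he.abs.mul hρ))
      (((Cmp_int hX h1).const_mul _).add ((Cmp_int hX hρ).const_mul _)) fun z => ?_
    dsimp only
    have h5 := Real.sqrt_nonneg (dt (m.1.1 z))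
    have h6 : |(e j).1 z| ≤ 1 / 2 * (e j).1 z ^ 2 + 1 / 2 := by
      rw [← sq_abs]
      nlinarith [sq_nonneg (|(e j).1 z| - 1)]
    calc |(e j).1 z| * √(dt (m.1.1 z)) ≤ (1 / 2 * (e j).1 z ^ 2 + 1 / 2) * √(dt (m.1.1 z)) := by
          gcongr
      _ = _ := by ring
  refine h4.trans (le_of_eq ?_)
  rw [integral_add ((Cmp_int hX h1).const_mul _) ((Cmp_int hX hρ).const_mul _),
    integral_const_mul, integral_const_mul, h2, h3]
  norm_num

theorem int_sq_e {hX : Surface Γ D} {m : Mt Γ D} {e : ℕ → TestS Γ} (h : Bas hX m e) (j : ℕ) :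
    ∫ z in D, (e j).1 z ^ 2 * √(dt (m.1.1 z)) = 1 := by
  rw [← bF_self h j, bF_apply]
  refine integral_congr_ae (Eventually.of_forall fun z => ?_)
  show _ = (1 : ℝ) * (e j).1 z * (e j).1 z * √(dt (m.1.1 z))
  ring

/-- The trace formula before the evaluation of the integrals. -/
theorem trace1 (hX : Surface Γ D) (hO : Ori Γ) (m : Mt Γ D) {e : ℕ → TestS Γ}
    (h : Bas hX m e) : ∃ C : ℝ, 0 < C ∧ ∀ (a : ℝ → ℂ) (ρ M τ : ℝ), 0 ≤ ρ → Amp a ρ M → 1 ≤ τ →
      ∀ S : Finset Γ, near Γ D m.1.1 ρ ⊆ ↑S →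
      |∑' j, hh (osc a τ) (FG33.lam m j) - ∑ γ ∈ S, ∫ x in D, Kx m.1.1 5 (osc a τ) x (γ • x) *
        √(dt (m.1.1 x))| ≤ C * Real.exp (C * ρ) * M / τ := by
  obtain ⟨C, hC, hdiag⟩ := diag hX hO m h
  obtain ⟨C1, hC1, hsup⟩ := sup_e hX hO m h
  have hL := Lev_of h
  obtain ⟨C2, hC2, hw⟩ := wsum hL
  have hz := zsum3 hL
  have hρ' := BGR_rho m
  refine ⟨C * (C2 + 1), by positivity, fun a ρ M τ hρ ha hτ S hS => ?_⟩
  have hM := amp_M_nonneg ha
  obtain ⟨C7, hC7⟩ := hh_decay (osc_smooth ha τ) (osc_supp ha τ) 7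
  set A := C * Real.exp (C * ρ) * M with hA
  have hA0 : 0 ≤ A := by positivity
  have hh7 : ∀ j, |hh (osc a τ) (FG33.lam m j)| * (1 + FG33.lam m j) ^ 4
      ≤ C7 * (1 / (FG33.lam m j + 1) ^ 3) := by
    intro j
    have h1 := hC7 (FG33.lam m j)
    have h2 := hL.nn j
    rw [abs_of_nonneg h2] at h1
    rw [mul_one_div, le_div_iff₀ (by positivity)]
    refine le_trans (le_of_eq ?_) h1
    ring
  have hs1 : Summable fun j => A * wgt (FG33.lam m j) τ * (1 + FG33.lam m j) ^ 2 := by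
    refine Summable.of_nonneg_of_le (fun j => ?_) (fun j => ?_)
      (hz.mul_left (A * (8 * (1 + τ))))
    · have := wgt_nonneg (FG33.lam m j) τ
      positivity
    · have := wgt_le2 (hL.nn j) hτ
      calc A * wgt (FG33.lam m j) τ * (1 + FG33.lam m j) ^ 2
          = A * (wgt (FG33.lam m j) τ * (1 + FG33.lam m j) ^ 2) := by ring
        _ ≤ A * (8 * (1 + τ) * (1 / (FG33.lam m j + 1) ^ 3)) := by gcongr
        _ = _ := by ring
  have hs2 : Summable fun j => |hh (osc a τ) (FG33.lam m j)| * (1 + FG33.lam m j) ^ 4 :=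
    Summable.of_nonneg_of_le (fun j => by positivity) hh7 (hz.mul_left C7)
  -- the first series
  set F1 : Pl → ℝ := fun x => ∑' j, hh (osc a τ) (FG33.lam m j) * (e j).1 x ^ 2 with hF1
  have hb1 : ∀ j x, ‖hh (osc a τ) (FG33.lam m j) * (e j).1 x ^ 2‖
      ≤ C1 ^ 2 * (|hh (osc a τ) (FG33.lam m j)| * (1 + FG33.lam m j) ^ 4) := by
    intro j x
    have h2 := hsup j x
    rw [norm_mul, norm_pow, Real.norm_eq_abs, Real.norm_eq_abs]
    calc |hh (osc a τ) (FG33.lam m j)| * |(e j).1 x| ^ 2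
        ≤ |hh (osc a τ) (FG33.lam m j)| * (C1 * (1 + FG33.lam m j) ^ 2) ^ 2 := by gcongr
      _ = _ := by ring
  have hF1c : Continuous F1 :=
    continuous_tsum (fun j => continuous_const.mul ((e j).2.1.continuous.pow 2))
      (hs2.mul_left (C1 ^ 2)) hb1
  -- the second series
  set F2 : Pl → ℝ := fun x => ∑' j, A * wgt (FG33.lam m j) τ * |(e j).1 x| with hF2
  have hb2 : ∀ j x, ‖A * wgt (FG33.lam m j) τ * |(e j).1 x|‖
      ≤ C1 * (A * wgt (FG33.lam m j) τ * (1 + FG33.lam m j) ^ 2) := by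
    intro j x
    have h2 := hsup j x
    have h5 := wgt_nonneg (FG33.lam m j) τ
    rw [Real.norm_of_nonneg (by positivity)]
    calc A * wgt (FG33.lam m j) τ * |(e j).1 x|
        ≤ A * wgt (FG33.lam m j) τ * (C1 * (1 + FG33.lam m j) ^ 2) := by gcongr
      _ = _ := by ring
  have hF2c : Continuous F2 :=
    continuous_tsum (fun j => continuous_const.mul (e j).2.1.continuous.abs)
      (hs1.mul_left C1) hb2
  -- integrals of the series
  have hI1 : ∫ x in D, F1 x * √(dt (m.1.1 x)) = ∑' j, hh (osc a τ) (FG33.lam m j) := by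
    have hint : ∀ j, Integrable (fun x => hh (osc a τ) (FG33.lam m j) * (e j).1 x ^ 2 *
        √(dt (m.1.1 x))) (volume.restrict D) := fun j =>
      Cmp_int hX ((continuous_const.mul ((e j).2.1.continuous.pow 2)).mul hρ')
    have hval : ∀ j, ∫ x in D, hh (osc a τ) (FG33.lam m j) * (e j).1 x ^ 2 * √(dt (m.1.1 x))
        = hh (osc a τ) (FG33.lam m j) := by
      intro j
      simp_rw [mul_assoc]
      rw [integral_const_mul, int_sq_e h j, mul_one]
    have hnorm : Summable fun j => ∫ x in D, ‖hh (osc a τ) (FG33.lam m j) * (e j).1 x ^ 2 *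
        √(dt (m.1.1 x))‖ := by
      have hv : ∀ j, ∫ x in D, ‖hh (osc a τ) (FG33.lam m j) * (e j).1 x ^ 2 * √(dt (m.1.1 x))‖
          = |hh (osc a τ) (FG33.lam m j)| := by
        intro j
        have : ∀ x, ‖hh (osc a τ) (FG33.lam m j) * (e j).1 x ^ 2 * √(dt (m.1.1 x))‖
            = |hh (osc a τ) (FG33.lam m j)| * ((e j).1 x ^ 2 * √(dt (m.1.1 x))) := by
          intro x
          rw [mul_assoc, norm_mul, Real.norm_eq_abs, Real.norm_of_nonneg (by positivity)]
        simp_rw [this]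
        rw [integral_const_mul, int_sq_e h j, mul_one]
      simp_rw [hv]
      refine Summable.of_nonneg_of_le (fun j => abs_nonneg _) (fun j => ?_) hs2
      have h1 : 1 ≤ (1 + FG33.lam m j) ^ 4 := one_le_pow₀ (by have := hL.nn j; linarith)
      have h2 := abs_nonneg (hh (osc a τ) (FG33.lam m j))
      nlinarith
    have h1 := (hasSum_integral_of_summable_integral_norm hint hnorm).tsum_eq
    simp_rw [hval] at h1
    rw [h1]
    refine integral_congr_ae (Eventually.of_forall fun x => ?_)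
    rw [hF1]
    dsimp only
    rw [tsum_mul_right]
  have hI2 : ∫ x in D, F2 x * √(dt (m.1.1 x)) ≤ A * (C2 / τ) := by
    have hint : ∀ j, Integrable (fun x => A * wgt (FG33.lam m j) τ * |(e j).1 x| *
        √(dt (m.1.1 x))) (volume.restrict D) := fun j =>
      Cmp_int hX ((continuous_const.mul (e j).2.1.continuous.abs).mul hρ')
    have hval : ∀ j, ∫ x in D, A * wgt (FG33.lam m j) τ * |(e j).1 x| * √(dt (m.1.1 x))
        ≤ A * wgt (FG33.lam m j) τ := by
      intro j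
      simp_rw [mul_assoc]
      rw [integral_const_mul, integral_const_mul]
      have h1 := int_abs_e h j
      have h2 := wgt_nonneg (FG33.lam m j) τ
      have h3 : wgt (FG33.lam m j) τ * ∫ x in D, |(e j).1 x| * √(dt (m.1.1 x))
          ≤ wgt (FG33.lam m j) τ * 1 := by gcongr
      rw [mul_one] at h3
      gcongr
    have hvn : ∀ j, 0 ≤ ∫ x in D, A * wgt (FG33.lam m j) τ * |(e j).1 x| * √(dt (m.1.1 x)) := by
      intro j
      refine integral_nonneg fun x => ?_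
      have h2 := wgt_nonneg (FG33.lam m j) τ
      show 0 ≤ A * wgt (FG33.lam m j) τ * |(e j).1 x| * √(dt (m.1.1 x))
      positivity
    have hwA : Summable fun j => A * wgt (FG33.lam m j) τ := (hw τ hτ).1.mul_left A
    have hnorm : Summable fun j => ∫ x in D, ‖A * wgt (FG33.lam m j) τ * |(e j).1 x| *
        √(dt (m.1.1 x))‖ := by
      have hv : ∀ j x, ‖A * wgt (FG33.lam m j) τ * |(e j).1 x| * √(dt (m.1.1 x))‖
          = A * wgt (FG33.lam m j) τ * |(e j).1 x| * √(dt (m.1.1 x)) := by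
        intro j x
        have h2 := wgt_nonneg (FG33.lam m j) τ
        exact Real.norm_of_nonneg (by positivity)
      simp_rw [hv]
      exact Summable.of_nonneg_of_le hvn hval hwA
    have h1 := (hasSum_integral_of_summable_integral_norm hint hnorm).tsum_eq
    have h2 : ∫ x in D, F2 x * √(dt (m.1.1 x))
        = ∫ x in D, ∑' j, A * wgt (FG33.lam m j) τ * |(e j).1 x| * √(dt (m.1.1 x)) := by
      refine integral_congr_ae (Eventually.of_forall fun x => ?_)
      rw [hF2]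
      dsimp only
      rw [tsum_mul_right]
    rw [h2, ← h1]
    have hsv := Summable.of_nonneg_of_le hvn hval hwA
    refine (hsv.tsum_le_tsum hval hwA).trans ?_
    rw [tsum_mul_left]
    exact mul_le_mul_of_nonneg_left (hw τ hτ).2 hA0
  -- the finite sum
  set F3 : Pl → ℝ := fun x => ∑ γ ∈ S, Kx m.1.1 5 (osc a τ) x (γ • x) with hF3
  have hKc : ∀ γ : Γ, Continuous fun x : Pl => Kx m.1.1 5 (osc a τ) x (γ • x) * √(dt (m.1.1 x)) :=
    fun γ => (Kd_cont hX hO (hm_of_Mt m) 5 (osc_smooth ha τ) (osc_even ha τ) (osc_supp ha τ)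
      γ).mul hρ'
  have hF3c : Continuous F3 := continuous_finsetSum _ fun γ _ =>
    Kd_cont hX hO (hm_of_Mt m) 5 (osc_smooth ha τ) (osc_even ha τ) (osc_supp ha τ) γ
  have hI3 : ∑ γ ∈ S, ∫ x in D, Kx m.1.1 5 (osc a τ) x (γ • x) * √(dt (m.1.1 x))
      = ∫ x in D, F3 x * √(dt (m.1.1 x)) := by
    rw [← integral_finsetSum _ fun γ _ => Cmp_int hX (hKc γ)]
    refine integral_congr_ae (Eventually.of_forall fun x => ?_)
    rw [hF3]
    dsimp only
    rw [Finset.sum_mul]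
  have c1 : Continuous fun x => F1 x * √(dt (m.1.1 x)) := hF1c.mul hρ'
  have c2 : Continuous fun x => F2 x * √(dt (m.1.1 x)) := hF2c.mul hρ'
  have c3 : Continuous fun x => F3 x * √(dt (m.1.1 x)) := hF3c.mul hρ'
  rw [← hI1, hI3, ← integral_sub (Cmp_int hX c1) (Cmp_int hX c3)]
  have hfin : |∫ x in D, (F1 x * √(dt (m.1.1 x)) - F3 x * √(dt (m.1.1 x)))|
      ≤ ∫ x in D, F2 x * √(dt (m.1.1 x)) := by
    rw [← Real.norm_eq_abs]
    refine norm_integral_le_of_norm_le (Cmp_int hX c2) ?_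
    filter_upwards [ae_restrict_mem hX.meas] with x hx
    have h1 := hdiag a ρ M τ hρ ha hτ x (subset_closure hx)
    rw [diag_eq hX m 5 hρ ha τ hS (subset_closure hx)] at h1
    have h2 : F1 x * √(dt (m.1.1 x)) - F3 x * √(dt (m.1.1 x))
        = -((F3 x - F1 x) * √(dt (m.1.1 x))) := by ring
    rw [h2, norm_neg, norm_mul, Real.norm_eq_abs, Real.norm_of_nonneg (Real.sqrt_nonneg _)]
    exact mul_le_mul_of_nonneg_right h1 (Real.sqrt_nonneg _)
  refine hfin.trans (hI2.trans ?_)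
  rw [← mul_div_assoc]
  refine div_le_div_of_nonneg_right ?_ (by linarith)
  rw [hA]
  have h3 : Real.exp (C * ρ) ≤ Real.exp (C * (C2 + 1) * ρ) := by
    rw [Real.exp_le_exp]
    have : 0 ≤ C * C2 * ρ := by positivity
    nlinarith
  calc C * Real.exp (C * ρ) * M * C2 ≤ C * Real.exp (C * (C2 + 1) * ρ) * M * (C2 + 1) := by
        gcongr
        linarith
    _ = _ := by ring

end TR
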