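import Pool.Agent.LibTR29.Defs
import Pool.Agent.LibBGR.Per

/-! The kernel is smooth with compact support. -/

open MeasureTheory Set Filter Topology
open scoped ContDiff

namespace TR

open BGS BR

variable {Γ : Type} [Group Γ] [MulAction Γ Pl] {D : Set Pl}

theorem KK_smooth {G : Pl → Co} (hG : PMt G) (N : ℕ) {g : ℝ → ℝ} (hg : ContDiff ℝ ∞ g)
    (he : ∀ t, g (-t) = g t) {ρ : ℝ} (hs : ∀ t, ρ < |t| → g t = 0) :
    ContDiff ℝ ∞ (KK G N g) := by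
  have h1 : ∀ j, ContDiff ℝ ∞ fun v : Pl => Ab j g (sg v) := fun j => by
    have := Ab_even hg he hs j
    exact this
  have h2 : ∀ j, ContDiff ℝ ∞ fun v : Pl => UU G j v * Ab j g (sg v) := fun j =>
    (UU_smooth1 hG j).mul (h1 j)
  exact ContDiff.sum fun j _ => h2 j

theorem Tl_of {g : ℝ → ℝ} (hg : ContDiff ℝ ∞ g) {ρ : ℝ} (hρ : 0 ≤ ρ)
    (hs : ∀ t, ρ < |t| → g t = 0) : Tl g ρ :=
  ⟨hg, fun t ht => hs t (by rw [abs_of_pos (hρ.trans_lt ht)]; exact ht)⟩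

theorem sg_eu (v : Pl) : sg v = eu v ^ 2 := by
  unfold sg eu
  rw [Real.sq_sqrt (by positivity)]

theorem KK_zero (G : Pl → Co) (N : ℕ) {g : ℝ → ℝ} (hg : ContDiff ℝ ∞ g) {ρ : ℝ} (hρ : 0 ≤ ρ)
    (hs : ∀ t, ρ < |t| → g t = 0) {v : Pl} (hv : ρ < eu v) : KK G N g v = 0 := by
  unfold KK
  refine Finset.sum_eq_zero fun j _ => ?_
  have h1 : ρ ^ 2 < sg v := by
    rw [sg_eu]
    gcongr
  rw [Ab_supp hρ (Tl_of hg hρ hs) j ((sq_nonneg ρ).trans_lt h1) h1, mul_zero]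

theorem norm_le_eu (v : Pl) : ‖v‖ ≤ eu v := by
  unfold eu
  rw [Prod.norm_def, Real.norm_eq_abs, Real.norm_eq_abs]
  refine max_le ?_ ?_
  · exact Real.abs_le_sqrt (by nlinarith [sq_nonneg v.2])
  · exact Real.abs_le_sqrt (by nlinarith [sq_nonneg v.1])

theorem Kx_smooth (hX : Surface Γ D) {m : Pl → Co} (hm : HM Γ m) (N : ℕ) {g : ℝ → ℝ}
    (hg : ContDiff ℝ ∞ g) (he : ∀ t, g (-t) = g t) {ρ : ℝ} (hs : ∀ t, ρ < |t| → g t = 0)
    (x : Pl) : ContDiff ℝ ∞ (Kx m N g x) := by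
  have h1 := KK_smooth (Gx_PMt hX hm x) N hg he hs
  have h2 : ContDiff ℝ ∞ fun y : Pl => Vx m x y :=
    (Vx_smooth hX hm).comp (contDiff_const.prodMk contDiff_id)
  exact h1.comp h2

theorem Kx_zero (m : Pl → Co) (N : ℕ) {g : ℝ → ℝ} (hg : ContDiff ℝ ∞ g) {ρ : ℝ} (hρ : 0 ≤ ρ)
    (hs : ∀ t, ρ < |t| → g t = 0) {x y : Pl} (hv : ρ < eu (Vx m x y)) : Kx m N g x y = 0 :=
  KK_zero _ N hg hρ hs hv

theorem Kx_compact (hX : Surface Γ D) {m : Pl → Co} (hm : HM Γ m) (N : ℕ) {g : ℝ → ℝ}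
    (hg : ContDiff ℝ ∞ g) {ρ : ℝ} (hρ : 0 ≤ ρ) (hs : ∀ t, ρ < |t| → g t = 0)
    (x : Pl) : HasCompactSupport (Kx m N g x) := by
  have h1 : IsCompact (Ex m x '' Metric.closedBall (0 : Pl) ρ) := by
    refine (isCompact_closedBall _ _).image ?_
    exact ((Ex_smooth hX hm).comp (contDiff_const.prodMk contDiff_id)).continuous
  refine HasCompactSupport.intro h1 fun y hy => ?_
  refine Kx_zero m N hg hρ hs ?_
  by_contra h2
  rw [not_lt] at h2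
  refine hy ⟨Vx m x y, ?_, Ex_Vx hX hm x y⟩
  rw [mem_closedBall_zero_iff]
  exact (norm_le_eu _).trans h2

/-- The periodised kernel. -/
noncomputable def Px (hX : Surface Γ D) {m : Pl → Co} (hm : HM Γ m) (N : ℕ) {g : ℝ → ℝ}
    (hg : ContDiff ℝ ∞ g) (he : ∀ t, g (-t) = g t) {ρ : ℝ} (hρ : 0 ≤ ρ)
    (hs : ∀ t, ρ < |t| → g t = 0) (x : Pl) : TestS Γ :=
  ⟨per Γ (Kx m N g x), per_mem hX (Kx_smooth hX hm N hg he hs x) (Kx_compact hX hm N hg hρ hs x)⟩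

end TR
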