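import Pool.Agent.LibBR70.PX8
import Pool.Agent.LibBR70.AB4
import Pool.Agent.LibBR70.AB7
import Pool.Agent.LibFG33.Defs
import Pool.Agent.LibGWa.U3

/-! The trace of the parametrix: definitions. -/

open MeasureTheory Set Filter Topology
open scoped ContDiff

namespace TR

open BGS BR

variable {Γ : Type} [Group Γ] [MulAction Γ Pl] {D : Set Pl}

/-- The kernel seen in the plane. -/
noncomputable def Kx (m : Pl → Co) (N : ℕ) (g : ℝ → ℝ) (x y : Pl) : ℝ :=
  KK (Gx m x) N g (Vx m x y)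

/-- A complete orthonormal family of eigenfunctions. -/
structure Bas (hX : Surface Γ D) (m : Mt Γ D) (e : ℕ → TestS Γ) : Prop where
  eig : ∀ j, ∀ h : TestS Γ, aF hX m (e j) h = 4 * Real.pi * x m j * bF hX m (oneT Γ) (e j) h
  orth : ∀ i j, bF hX m (oneT Γ) (e i) (e j) = if i = j then 1 else 0
  compl : ∀ u : Pl → ℝ, Continuous u → (∀ j, ∫ z in D, (e j).1 z * u z * √(dt (m.1.1 z)) = 0) →
    ∫ z in D, u z ^ 2 * √(dt (m.1.1 z)) = 0
  nonneg : ∀ j, 0 ≤ x m j
  grow : ∃ c : ℝ, 0 < c ∧ ∀ j : ℕ, c * j ≤ x m j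

end TR
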