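import Pool.Agent.LibTR29.T2

/-! Pointwise convergence of the expansion in eigenfunctions. -/

open MeasureTheory Set Filter Topology
open scoped ContDiff

namespace TR

open BGS BR

variable {Γ : Type} [Group Γ] [MulAction Γ Pl] {D : Set Pl}

/-- A continuous invariant function with zero norm vanishes. -/
theorem zero_of_norm (hX : Surface Γ D) (m : Mt Γ D) {u : Pl → ℝ} (hu : Continuous u)
    (hi : ∀ (γ : Γ) z, u (γ • z) = u z) (h : ∫ z in D, u z ^ 2 * √(dt (m.1.1 z)) = 0) (z : Pl) :
    u z = 0 := by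
  have hnn : ∀ z, 0 ≤ u z ^ 2 * √(dt (m.1.1 z)) := fun z =>
    mul_nonneg (sq_nonneg _) (Real.sqrt_nonneg _)
  have hz' := h
  rw [setIntegral_eq_zero_iff_of_nonneg_ae (ae_of_all _ hnn)
    (Cmp_int hX ((hu.pow 2).mul (BGR_rho m)))] at hz'
  have hnull : volume (D ∩ {z | u z ≠ 0}) = 0 := by
    have h1 : ∀ᵐ z ∂(volume.restrict D), u z = 0 := by
      filter_upwards [hz'] with z hz2
      have h2 : √(dt (m.1.1 z)) ≠ 0 := (Real.sqrt_pos.2 (m.2.pos z).2).ne'
      have h3 : u z ^ 2 * √(dt (m.1.1 z)) = 0 := hz2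
      rcases mul_eq_zero.1 h3 with h4 | h4
      · exact pow_eq_zero_iff (two_ne_zero) |>.1 h4
      · exact absurd h4 h2
    rw [ae_restrict_iff' hX.meas, ae_iff] at h1
    convert h1 using 2
    ext z
    simp
  have := Cover_countable hX
  have hN : volume {z | u z ≠ 0} = 0 := by
    have hsub : {z | u z ≠ 0} ⊆ ⋃ γ : Γ, (fun w : Pl => γ • w) '' (D ∩ {z | u z ≠ 0}) := by
      intro z hz3
      obtain ⟨γ, hγ, -⟩ := hX.orbit z
      refine mem_iUnion.2 ⟨γ⁻¹, γ • z, ⟨hγ, ?_⟩, by simp⟩
      show u (γ • z) ≠ 0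
      rw [hi]
      exact hz3
    refine measure_mono_null hsub ?_
    rw [measure_iUnion_null_iff]
    intro γ
    exact addHaar_image_eq_zero_of_differentiableOn_of_addHaar_eq_zero volume
      ((hX.smooth γ).differentiable (by simp)).differentiableOn hnull
  have hopen : IsOpen {z | u z ≠ 0} := isOpen_ne_fun hu continuous_const
  by_contra hne
  exact (hopen.measure_pos volume ⟨z, hne⟩).ne' hN

theorem expand (hX : Surface Γ D) (hO : Ori Γ) (m : Mt Γ D) {e : ℕ → TestS Γ} (h : Bas hX m e)
    (P : TestS Γ)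
    (hs : Summable fun j => |bF hX m (oneT Γ) (e j) P| * (1 + FG33.lam m j) ^ 2) (y : Pl) :
    HasSum (fun j => bF hX m (oneT Γ) (e j) P * (e j).1 y) (P.1 y) := by
  obtain ⟨C, hC, hsup⟩ := sup_e hX hO m h
  set c : ℕ → ℝ := fun j => bF hX m (oneT Γ) (e j) P with hc
  have hρ := BGR_rho m
  have hs' : Summable fun j => C * (|c j| * (1 + FG33.lam m j) ^ 2) := hs.mul_left C
  have hterm : ∀ j z, ‖c j * (e j).1 z‖ ≤ C * (|c j| * (1 + FG33.lam m j) ^ 2) := by
    intro j z
    rw [norm_mul, Real.norm_eq_abs, Real.norm_eq_abs]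
    calc |c j| * |(e j).1 z| ≤ |c j| * (C * (1 + FG33.lam m j) ^ 2) := by
          gcongr
          exact hsup j z
      _ = _ := by ring
  set F : Pl → ℝ := fun z => ∑' j, c j * (e j).1 z with hF
  have hsum : ∀ z, Summable fun j => c j * (e j).1 z := fun z =>
    Summable.of_norm_bounded hs' fun j => hterm j z
  have hFc : Continuous F :=
    continuous_tsum (fun j => continuous_const.mul (e j).2.1.continuous) hs' hterm
  have hFi : ∀ (γ : Γ) z, F (γ • z) = F z := by
    intro γ z
    rw [hF]
    exact tsum_congr fun j => by rw [(e j).2.2 γ z]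
  set u : Pl → ℝ := fun z => P.1 z - F z with hu
  have huc : Continuous u := P.2.1.continuous.sub hFc
  have hui : ∀ (γ : Γ) z, u (γ • z) = u z := by
    intro γ z
    rw [hu]
    dsimp only
    rw [P.2.2, hFi]
  -- orthogonality
  have horth : ∀ i, ∫ z in D, (e i).1 z * u z * √(dt (m.1.1 z)) = 0 := by
    intro i
    have hei : Continuous (e i).1 := (e i).2.1.continuous
    have hint : ∀ j, Integrable (fun z => c j * (e j).1 z * (e i).1 z * √(dt (m.1.1 z)))
        (volume.restrict D) := fun j =>
      Cmp_int hX (((continuous_const.mul (e j).2.1.continuous).mul hei).mul hρ)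
    have hnorm : Summable fun j => ∫ z in D, ‖c j * (e j).1 z * (e i).1 z * √(dt (m.1.1 z))‖ := by
      refine Summable.of_nonneg_of_le (fun j => integral_nonneg fun z => norm_nonneg _)
        (fun j => ?_) (hs'.mul_right (∫ z in D, ‖(e i).1 z * √(dt (m.1.1 z))‖))
      rw [← integral_const_mul]
      refine integral_mono (hint j).norm
        ((Cmp_int hX (hei.mul hρ)).norm.const_mul _) fun z => ?_
      dsimp only
      rw [mul_assoc (c j * (e j).1 z), norm_mul]
      exact mul_le_mul_of_nonneg_right (hterm j z) (norm_nonneg _)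
    have h1 := hasSum_integral_of_summable_integral_norm hint hnorm
    have h2 : ∀ j, ∫ z in D, c j * (e j).1 z * (e i).1 z * √(dt (m.1.1 z))
        = c j * (if i = j then 1 else 0) := by
      intro j
      rw [← h.orth i j, bF_apply, ← integral_const_mul]
      refine integral_congr_ae (Eventually.of_forall fun z => ?_)
      show _ = c j * ((1 : ℝ) * (e i).1 z * (e j).1 z * √(dt (m.1.1 z)))
      ring
    have h3 : ∑' j, ∫ z in D, c j * (e j).1 z * (e i).1 z * √(dt (m.1.1 z)) = c i := by
      simp_rw [h2]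
      rw [tsum_eq_single i]
      · simp
      · intro j hj
        rw [if_neg hj.symm, mul_zero]
    have h4 : ∫ z in D, ∑' j, c j * (e j).1 z * (e i).1 z * √(dt (m.1.1 z))
        = ∫ z in D, (e i).1 z * F z * √(dt (m.1.1 z)) := by
      refine integral_congr_ae (Eventually.of_forall fun z => ?_)
      dsimp only
      rw [tsum_mul_right, tsum_mul_right]
      ring
    have h5 : ∫ z in D, (e i).1 z * P.1 z * √(dt (m.1.1 z)) = c i := by
      rw [hc]
      dsimp only
      rw [bF_apply]
      refine integral_congr_ae (Eventually.of_forall fun z => ?_)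
      show _ = (1 : ℝ) * (e i).1 z * P.1 z * √(dt (m.1.1 z))
      ring
    have h6 : ∫ z in D, (e i).1 z * u z * √(dt (m.1.1 z))
        = (∫ z in D, (e i).1 z * P.1 z * √(dt (m.1.1 z))) -
          ∫ z in D, (e i).1 z * F z * √(dt (m.1.1 z)) := by
      have hi1 : Continuous fun z => (e i).1 z * P.1 z * √(dt (m.1.1 z)) :=
        (hei.mul P.2.1.continuous).mul hρ
      have hi2 : Continuous fun z => (e i).1 z * F z * √(dt (m.1.1 z)) := (hei.mul hFc).mul hρ
      rw [← integral_sub (Cmp_int hX hi1) (Cmp_int hX hi2)]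
      refine integral_congr_ae (Eventually.of_forall fun z => ?_)
      rw [hu]
      dsimp only
      ring
    have h7 := h1.tsum_eq
    rw [h3, h4] at h7
    rw [h6, h5, ← h7, sub_self]
  have h7 := zero_of_norm hX m huc hui (h.compl u huc horth) y
  have h8 : P.1 y = F y := by
    rw [hu] at h7
    dsimp only at h7
    linarith
  rw [h8]
  exact (hsum y).hasSum

end TR
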